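import Mathlib
import Pool.Agent.H384R2.Fatou
import Pool.Agent.W723.MC.Topo

/-! Definitions and statements of the project SG (helper757, MP_571b65_an): an entire function with
a multiply connected wandering domain of infinite inner connectivity with uncountably many
one-point complementary components. -/

set_option autoImplicit false

open Filter Topology Metric Set
open Pool.Agent.H384R2.Fatou

namespace Pool.Agent.W757.SG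

/-- The properties of the function which are used. In the annulus `v k < ‖z‖ < t k` of stage `k`
there is no zero, the two zeros of stage `k` are in the discs with centres `c b k` and radius
`δ k` inside the annulus, and `f` has an inverse branch from the disc of radius `σ k` about `0` to
each of these discs. -/
structure Dat (f : ℂ → ℂ) (v s t δ σ : ℕ → ℝ) (c : Bool → ℕ → ℂ) : Prop where
  df : Differentiable ℂ f
  f0 : f 0 = 0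
  hv : Tendsto v atTop atTop
  v1 : ∀ k, 1 < v k
  vs : ∀ k, v k < s k
  st : ∀ k, s k < t k
  hδ : ∀ k, 0 < δ k
  hσ : ∀ k, 0 < σ k
  ann : ∀ k, ∀ z : ℂ, v k < ‖z‖ → ‖z‖ < t k → v (k + 1) < ‖f z‖ ∧ ‖f z‖ < t (k + 1)
  sph : ∀ b k, ∀ z : ℂ, ‖z - c b k‖ = δ k → v (k + 1) < ‖f z‖ ∧ ‖f z‖ < t (k + 1)
  bd : ∀ k, ∀ z : ℂ, ‖z‖ ≤ v k → ‖f z‖ < s (k + 1)
  cv : ∀ b k, ‖c b k‖ + δ k < v k
  nest : ∀ b k, ‖c b (k + 1)‖ + δ (k + 1) ≤ σ k / 10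
  dis : ∀ k, 2 * δ k < ‖c true k - c false k‖
  inv : ∀ b k, ∃ φ : ℂ → ℂ, DifferentiableOn ℂ φ (ball 0 (σ k)) ∧
    MapsTo φ (ball 0 (σ k)) (ball (c b k) (δ k)) ∧ (∀ w ∈ ball (0 : ℂ) (σ k), f (φ w) = w) ∧
    ∀ z ∈ ball (c b k) (δ k), f z ∈ ball (0 : ℂ) (σ k) → φ (f z) = z
  gr : ∀ C : ℝ, ∀ᶠ k in atTop, C * Real.log (t k) < Real.log (v (k + 1))

/-- a point of the annulus of stage `k` -/
noncomputable def xx (s t : ℕ → ℝ) (k : ℕ) : ℂ := (((s k + t k) / 2 : ℝ) : ℂ)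

/-- the Fatou component of stage `k` -/
noncomputable def UU (f : ℂ → ℂ) (s t : ℕ → ℝ) (k : ℕ) : Set ℂ := FatouComponent f (xx s t k)

/-- (ABS1) the Fatou components. -/
def StABS1 : Prop :=
  ∀ (f : ℂ → ℂ) (v s t δ σ : ℕ → ℝ) (c : Bool → ℕ → ℂ), Dat f v s t δ σ c →
    (¬ ∃ p : Polynomial ℂ, ∀ z, f z = p.eval z) ∧
    (∀ k, xx s t k ∈ FatouSet f) ∧
    (∀ k, ∀ z : ℂ, v k < ‖z‖ → ‖z‖ < t k → z ∈ UU f s t k) ∧
    (∀ k, MapsTo f (UU f s t k) (UU f s t (k + 1))) ∧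
    (∀ j k, j ≠ k → UU f s t j ≠ UU f s t k) ∧
    (∀ k, ∀ z : ℂ, ‖z‖ ≤ v k → f z ∈ UU f s t (k + 1) → z ∈ UU f s t k) ∧
    (∀ k, ∀ z ∈ UU f s t k, Tendsto (fun n => ‖f^[n] z‖) atTop atTop)

/-- (ABS2) the nested discs: for every sequence `ω` there are a point `p` and arbitrarily small
neighbourhoods `D` of `p` with frontier in `UU k` which contain points mapped to `0`. -/
def StABS2 : Prop :=
  ∀ (f : ℂ → ℂ) (v s t δ σ : ℕ → ℝ) (c : Bool → ℕ → ℂ), Dat f v s t δ σ c →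
    ∀ (k : ℕ) (ω : ℕ → Bool), ∃ p : ℂ,
      (∀ j, f^[j] p ∈ ball (c (ω j) (k + j)) (δ (k + j))) ∧
      ∀ ε : ℝ, 0 < ε → ∃ D : Set ℂ, IsOpen D ∧ p ∈ D ∧ D ⊆ ball p ε ∧ D ⊆ ball 0 (v k) ∧
        frontier D ⊆ UU f s t k ∧ ∃ q ∈ D, ∃ m : ℕ, f^[m] q = 0

/-! ### the function -/

/-- the exponents -/
def ee (k : ℕ) : ℕ := 2 * (k + 10) ^ 2

/-- logarithms of the radii -/
noncomputable def la : ℕ → ℝ
  | 0 => 4000
  | k + 1 => (ee k - 1) * la k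

/-- the radii `w k`, `a k`, `v k`, `s k`, `t k` -/
noncomputable def ww (k : ℕ) : ℝ := Real.exp (la k)
noncomputable def aa (k : ℕ) : ℝ := Real.exp (la k + 2)
noncomputable def vv (k : ℕ) : ℝ := Real.exp (la k + 4)
noncomputable def qq (k : ℕ) : ℝ := 3 / 2 - 2 / (k + 9)
noncomputable def ss (k : ℕ) : ℝ := Real.exp (la k + 4 * ee k + 12)
noncomputable def tt (k : ℕ) : ℝ := Real.exp (qq k * la k)
noncomputable def pp (k : ℕ) : ℝ := Real.exp (6 - la k)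
noncomputable def dl (k : ℕ) : ℝ := aa k / (20 * ee k)
noncomputable def sg (k : ℕ) : ℝ := pp k * aa k ^ ee k / (20 * ee k)
noncomputable def cc (b : Bool) (k : ℕ) : ℂ := if b then Complex.I * aa k else -(Complex.I * aa k)

/-- the terms of the series -/
noncomputable def TT (k : ℕ) (z : ℂ) : ℂ := pp k * z ^ ee k * (1 + z ^ 2 / aa k ^ 2)

/-- the entire function -/
noncomputable def ff (z : ℂ) : ℂ := ∑' k, TT k z

/-- (FUN1) convergence and error estimates. -/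
def StFUN1 : Prop :=
  Differentiable ℂ ff ∧ ff 0 = 0 ∧
  (∀ k, ∀ z : ℂ, ww k ≤ ‖z‖ → ‖z‖ ≤ tt k →
    ‖ff z - TT k z‖ ≤ 1 / (1000 * (ee k : ℝ) ^ 2) * (pp k * ‖z‖ ^ ee k)) ∧
  ∀ k, ∀ z : ℂ, ‖z‖ ≤ vv k → ‖ff z‖ ≤ 2 * (pp k * vv k ^ ee k * (1 + vv k ^ 2 / aa k ^ 2))

/-- (FUN2) the bounds, from the error estimate. -/
def StFUN2 : Prop :=
  Tendsto vv atTop atTop ∧ (∀ k, 1 < vv k) ∧ (∀ k, vv k < ss k) ∧ (∀ k, ss k < tt k) ∧
  (∀ k, 0 < dl k) ∧ (∀ k, 0 < sg k) ∧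
  (∀ k, ∀ z : ℂ, vv k < ‖z‖ → ‖z‖ < tt k → vv (k + 1) < ‖ff z‖ ∧ ‖ff z‖ < tt (k + 1)) ∧
  (∀ b k, ∀ z : ℂ, ‖z - cc b k‖ = dl k → vv (k + 1) < ‖ff z‖ ∧ ‖ff z‖ < tt (k + 1)) ∧
  (∀ k, ∀ z : ℂ, ‖z‖ ≤ vv k → ‖ff z‖ < ss (k + 1)) ∧
  (∀ b k, ‖cc b k‖ + dl k < vv k) ∧ (∀ b k, ‖cc b (k + 1)‖ + dl (k + 1) ≤ sg k / 10) ∧
  (∀ k, 2 * dl k < ‖cc true k - cc false k‖) ∧
  ∀ C : ℝ, ∀ᶠ k in atTop, C * Real.log (tt k) < Real.log (vv (k + 1))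

/-- (FUN3) inverse branches, from the error estimate. -/
def StFUN3 : Prop :=
  ∀ b k, ∃ φ : ℂ → ℂ, DifferentiableOn ℂ φ (ball 0 (sg k)) ∧
    MapsTo φ (ball 0 (sg k)) (ball (cc b k) (dl k)) ∧ (∀ w ∈ ball (0 : ℂ) (sg k), ff (φ w) = w) ∧
    ∀ z ∈ ball (cc b k) (dl k), ff z ∈ ball (0 : ℂ) (sg k) → φ (ff z) = z

end Pool.Agent.W757.SG
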