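import Mathlib
import Pool.Agent.W757.SG.Defs
import Pool.Agent.W723.MC.Abs

/-! SG-ABS1: the Fatou components. -/

set_option autoImplicit false

open Filter Topology Metric Set
open Pool.Agent.H384R2.Fatou
open Pool.Agent.W723.MC

namespace Pool.Agent.W757.SG.A1

/-- the annulus -/
def VV (v t : ℕ → ℝ) (k : ℕ) : Set ℂ := {z | v k < ‖z‖ ∧ ‖z‖ < t k}

theorem VV_preconnected {v t : ℕ → ℝ} (k : ℕ) (h0 : 0 ≤ v k) : IsPreconnected (VV v t k) := by
  have h : VV v t k =
      (fun x : ℝ × ℝ => (x.1 : ℂ) * Complex.exp (x.2 * Complex.I)) '' (Ioo (v k) (t k) ×ˢ univ) := by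
    ext z
    constructor
    · rintro ⟨h1, h2⟩
      exact ⟨(‖z‖, Complex.arg z), ⟨⟨h1, h2⟩, mem_univ _⟩, Complex.norm_mul_exp_arg_mul_I z⟩
    · rintro ⟨⟨r, θ⟩, ⟨⟨h1, h2⟩, -⟩, rfl⟩
      have h3 : ‖(r : ℂ) * Complex.exp (θ * Complex.I)‖ = r := by
        rw [norm_mul, Complex.norm_exp_ofReal_mul_I, mul_one, Complex.norm_real,
          Real.norm_eq_abs, abs_of_nonneg (h0.trans h1.le)]
      exact ⟨by simpa only [h3] using h1, by simpa only [h3] using h2⟩
  rw [h]
  exact (isPreconnected_Ioo.prod isPreconnected_univ).image _ (by fun_prop)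

theorem VV_open {v t : ℕ → ℝ} (k : ℕ) : IsOpen (VV v t k) :=
  (isOpen_lt continuous_const continuous_norm).inter (isOpen_lt continuous_norm continuous_const)

theorem poly_bound (p : Polynomial ℂ) : ∃ A : ℝ, 1 ≤ A ∧ ∀ z : ℂ, 1 ≤ ‖z‖ →
    ‖p.eval z‖ ≤ A * ‖z‖ ^ p.natDegree := by
  refine ⟨∑ i ∈ Finset.range (p.natDegree + 1), ‖p.coeff i‖ + 1, ?_, fun z hz => ?_⟩
  · have : 0 ≤ ∑ i ∈ Finset.range (p.natDegree + 1), ‖p.coeff i‖ :=
      Finset.sum_nonneg fun i _ => norm_nonneg _
    linarith
  · rw [Polynomial.eval_eq_sum_range]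
    calc ‖∑ i ∈ Finset.range (p.natDegree + 1), p.coeff i * z ^ i‖ ≤
        ∑ i ∈ Finset.range (p.natDegree + 1), ‖p.coeff i * z ^ i‖ := norm_sum_le _ _
      _ ≤ ∑ i ∈ Finset.range (p.natDegree + 1), ‖p.coeff i‖ * ‖z‖ ^ p.natDegree := by
          apply Finset.sum_le_sum
          intro i hi
          rw [norm_mul, norm_pow]
          have : ‖z‖ ^ i ≤ ‖z‖ ^ p.natDegree :=
            pow_le_pow_right₀ hz (by have := Finset.mem_range.1 hi; omega)
          gcongr
      _ = (∑ i ∈ Finset.range (p.natDegree + 1), ‖p.coeff i‖) * ‖z‖ ^ p.natDegree := by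
          rw [Finset.sum_mul]
      _ ≤ _ := by
          have : 0 ≤ ‖z‖ ^ p.natDegree := by positivity
          nlinarith

theorem task : Pool.Agent.W757.SG.StABS1 := by
  intro f v s t δ σ c hD
  have hfc : Continuous f := hD.df.continuous
  have hvt : ∀ k, v k < t k := fun k => (hD.vs k).trans (hD.st k)
  have hv0 : ∀ k, 0 < v k := fun k => one_pos.trans (hD.v1 k)
  have ht1 : ∀ k, 1 < t k := fun k => (hD.v1 k).trans (hvt k)
  have hxn : ∀ k, ‖xx s t k‖ = (s k + t k) / 2 := by
    intro k
    have e1 := hD.v1 k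
    have e2 := hD.vs k
    have e3 := hD.st k
    simp only [xx, Complex.norm_real, Real.norm_eq_abs]
    rw [abs_of_pos (by linarith)]
  have hxV : ∀ k, xx s t k ∈ VV v t k := by
    intro k
    have e2 := hD.vs k
    have e3 := hD.st k
    refine ⟨?_, ?_⟩ <;> rw [hxn] <;> linarith
  have hmV : ∀ k, MapsTo f (VV v t k) (VV v t (k + 1)) := fun k z hz => hD.ann k z hz.1 hz.2
  have hVn : ∀ k n, MapsTo f^[n] (VV v t k) (VV v t (k + n)) := by
    intro k n
    induction n with
    | zero => intro x hx; simpa using hx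
    | succ n ih =>
      intro x hx
      rw [Function.iterate_succ_apply']
      exact hmV _ (ih hx)
  have hesc : ∀ k, EscOn f (VV v t k) := by
    intro k T
    have h4 : Tendsto (fun n => v (k + n)) atTop atTop :=
      hD.hv.comp (tendsto_add_atTop_nat k |>.congr fun n => by ring)
    filter_upwards [h4.eventually_ge_atTop T] with n hn z hz
    exact hn.trans (hVn k n hz).1.le
  have hVF : ∀ k, VV v t k ⊆ FatouSet f := fun k => subset_fatou_of_escOn (hesc k) (VV_open k)
  have hopen : ∀ S : Set ℂ, IsOpen S → IsOpen (f '' S) := by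
    intro S hS
    have h := (hD.df.differentiableOn.analyticOnNhd
      isOpen_univ).is_constant_or_isOpen isPreconnected_univ
    rcases h with ⟨w, hw⟩ | h
    · exfalso
      obtain ⟨k, hk⟩ := ((hD.hv.comp (tendsto_add_atTop_nat 1)).eventually_gt_atTop ‖w‖).exists
      have h1 := (hmV k (hxV k)).1
      rw [hw _ (mem_univ _)] at h1
      simp only [Function.comp] at hk
      linarith
    · exact h S (subset_univ _) hS
  have hxF : ∀ k, xx s t k ∈ FatouSet f := fun k => hVF k (hxV k)
  have hxn' : ∀ k, VV v t k ∈ 𝓝 (xx s t k) := fun k => (VV_open k).mem_nhds (hxV k)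
  set U : ℕ → Set ℂ := UU f s t with hU
  have hxU : ∀ k, xx s t k ∈ U k := fun k => mem_connectedComponentIn (hxF k)
  have hVU : ∀ k, VV v t k ⊆ U k := fun k =>
    (VV_preconnected k (hv0 k).le).subset_connectedComponentIn (hxV k) (hVF k)
  have hUU : ∀ k, MapsTo f (U k) (U (k + 1)) := by
    intro k x hx
    have h1 := component_map hfc hopen (hxF k) 1
    have h2 : f x ∈ FatouComponent f (f (xx s t k)) := h1 ⟨x, hx, rfl⟩
    have h3 : f (xx s t k) ∈ U (k + 1) := hVU _ (hmV k (hxV k))
    rwa [← comp_eq h3] at h2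
  have hlv : ∀ k, 0 < Real.log (v k) := fun k => Real.log_pos (hD.v1 k)
  have hlt : ∀ k, 0 < Real.log (t k) := fun k => Real.log_pos (ht1 k)
  -- eventual monotonicity
  obtain ⟨N, hN⟩ := Filter.eventually_atTop.1 (hD.gr 1)
  have hNv : ∀ k, N ≤ k → v k < v (k + 1) := by
    intro k hk
    have h1 := hN k hk
    rw [one_mul] at h1
    have h2 : t k < v (k + 1) := (Real.log_lt_log_iff (by linarith [ht1 k]) (hv0 _)).1 h1
    exact (hvt k).trans h2
  have hNv2 : ∀ k l, N ≤ k → k ≤ l → v k ≤ v l := by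
    intro k l hk hkl
    induction l, hkl using Nat.le_induction with
    | base => exact le_rfl
    | succ l hl ih => exact ih.trans (hNv l (hk.trans hl)).le
  have hne : ∀ j k, j < k → U j ≠ U k := by
    intro j k hjk h
    have h1 : xx s t k ∈ FatouComponent f (xx s t j) := by
      have := hxU k
      rwa [← h] at this
    obtain ⟨C, hC, h2⟩ := growth_compare hD.df (hxF j) (hxn' j) (hesc j) h1
    have h3 : ∀ᶠ n in atTop, C * Real.log (t (j + n)) < Real.log (v (j + n + 1)) := by
      have : Tendsto (fun n => j + n) atTop atTop :=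
        (tendsto_add_atTop_nat j).congr fun n => by ring
      exact this.eventually (hD.gr C)
    obtain ⟨n, h4, h5, h6⟩ := (h2.and (h3.and (eventually_ge_atTop N))).exists
    have h7 := (hVn k n (hxV k))
    have h8 := (hVn j n (hxV j))
    have h9 : v (j + n + 1) ≤ v (k + n) := hNv2 _ _ (by omega) (by omega)
    have h10 : Real.log (v (j + n + 1)) ≤ Real.log ‖f^[n] (xx s t k)‖ :=
      Real.log_le_log (hv0 _) (h9.trans h7.1.le)
    have h11 : Real.log ‖f^[n] (xx s t j)‖ ≤ Real.log (t (j + n)) :=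
      Real.log_le_log ((hv0 _).trans h8.1) h8.2.le
    have h12 := mul_le_mul_of_nonneg_left h11 hC.le
    linarith [h4.1]
  refine ⟨?_, hxF, fun k z h1 h2 => hVU k ⟨h1, h2⟩, hUU, ?_, ?_, ?_⟩
  · -- not a polynomial
    rintro ⟨p, hp⟩
    obtain ⟨A, hA, hAp⟩ := poly_bound p
    have h1 : ∀ᶠ k in atTop, A < v k := hD.hv.eventually_gt_atTop A
    obtain ⟨k, h1, h2⟩ := (h1.and (hD.gr (p.natDegree + 1))).exists
    have h3 := (hmV k (hxV k)).1
    have h4 := hAp (xx s t k) ((hD.v1 k).le.trans (hxV k).1.le)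
    rw [← hp] at h4
    have hAt : A < t k := h1.trans (hvt k)
    have h5 : v (k + 1) < t k ^ (p.natDegree + 1) := by
      calc v (k + 1) < ‖f (xx s t k)‖ := h3
        _ ≤ A * ‖xx s t k‖ ^ p.natDegree := h4
        _ ≤ t k * t k ^ p.natDegree := by
            have := (hxV k).2.le
            have h6 : 0 ≤ t k := by linarith [ht1 k]
            gcongr
        _ = t k ^ (p.natDegree + 1) := by ring
    have h6 := Real.log_lt_log (hv0 _) h5
    rw [Real.log_pow] at h6
    push_cast at h6
    linarith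
  · intro j k hjk
    rcases lt_or_gt_of_ne hjk with h | h
    · exact hne j k h
    · exact (hne k j h).symm
  · -- the lemma
    intro k z hz hfz
    have hzF : z ∈ FatouSet f := fatou_backward hfc (connectedComponentIn_subset _ _ hfz)
    set W := FatouComponent f z with hW
    by_contra hzU
    have hzW : z ∈ W := mem_connectedComponentIn hzF
    have hWV : ∀ y ∈ W, y ∉ VV v t k := by
      intro y hy hyV
      have h2 : W = U k := comp_eq_of_mem hy (hVU k hyV)
      exact hzU (h2 ▸ hzW)
    have hWR : W ⊆ closedBall 0 (v k) := by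
      intro y hy
      by_contra hcon
      have h1 : v k < ‖y‖ := by simpa using hcon
      have hint := (isPreconnected_connectedComponentIn : IsPreconnected W).intermediate_value
        hzW hy (f := fun z => ‖z‖) (by fun_prop)
      obtain ⟨m, hm1, hm2⟩ : ∃ m, v k < m ∧ m ≤ ‖y‖ ∧ m < t k := by
        rcases lt_or_ge ‖y‖ (t k) with h | h
        · exact ⟨‖y‖, h1, le_rfl, h⟩
        · refine ⟨(v k + t k) / 2, by linarith [hvt k], by linarith [hvt k], by linarith [hvt k]⟩
      obtain ⟨x, hx, hx2⟩ := hint ⟨hz.trans hm1.le, hm2.1⟩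
      apply hWV x hx
      simp only at hx2
      exact ⟨by rw [hx2]; exact hm1, by rw [hx2]; exact hm2.2⟩
    have hWc : IsCompact (closure W) := (isBounded_closedBall.subset hWR).isCompact_closure
    have h1 : U (k + 1) ⊆ f '' W := by
      apply IsPreconnected.subset_of_closure_inter_subset isPreconnected_connectedComponentIn
        (hopen _ (component_isOpen f z))
      · exact ⟨f z, hfz, z, hzW, rfl⟩
      · rintro y ⟨hy, hyU⟩
        have h2 : closure (f '' W) ⊆ f '' closure W :=
          closure_minimal (image_mono subset_closure) (hWc.image hfc).isClosed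
        obtain ⟨x, hx, rfl⟩ := h2 hy
        have hxF : x ∈ FatouSet f := fatou_backward hfc (connectedComponentIn_subset _ _ hyU)
        exact ⟨x, closure_comp hxF hx, rfl⟩
    obtain ⟨x, hx, hx2⟩ := h1 (hxU (k + 1))
    have h3 : ‖x‖ ≤ v k := by simpa using hWR hx
    have h4 := hD.bd k x h3
    rw [hx2, hxn] at h4
    linarith [hD.st (k + 1)]
  · intro k z hz
    obtain ⟨r, hr, -, h⟩ := esc_near (hxF k) (hxn' k) (hesc k) hz
    rw [Filter.tendsto_atTop]
    intro R
    filter_upwards [h R] with n hn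
    exact hn z (mem_ball_self hr)

end Pool.Agent.W757.SG.A1
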