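import Mathlib
import Pool.Agent.W757.SG.Defs
import Pool.Agent.W757.SG.Abs1
import Pool.Agent.W723.MC.Abs
import Pool.Agent.Helper113.Gorin.Schottky

/-! Every orbit starting in the wandering domain is eventually in the annuli. -/

set_option autoImplicit false

open Filter Topology Metric Set
open Pool.Agent.H384R2.Fatou
open Pool.Agent.W723.MC

namespace Pool.Agent.W757.SG

/-- Additional properties of the function. -/
structure Dat2 (f : ℂ → ℂ) (v s t δ : ℕ → ℝ) (c : Bool → ℕ → ℂ) : Prop where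
  s1 : ∀ k, ∀ z : ℂ, s k ≤ ‖z‖ → ‖z‖ < t k → s (k + 1) ≤ ‖f z‖
  s2 : Tendsto (fun k => s k / v k) atTop atTop
  vc : ∀ b k, v k ≤ 100 * (‖c b k‖ - δ k)

namespace A3

/-- the Schottky constant -/
noncomputable def SC (M : ℝ) : ℝ := Real.exp (Real.pi * Real.exp (Real.pi * ((2 * M + 1) + 386))) + 1

theorem SC_pos (M : ℝ) : 0 < SC M := by unfold SC; positivity

/-- Schottky step for functions which omit `0` and `q`. -/
theorem schottky_step {G : ℂ → ℂ} {c : ℂ} {r : ℝ} (hr : 0 < r) (hG : DifferentiableOn ℂ G (ball c r))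
    {q : ℂ} (hq : q ≠ 0)
    (hG0 : ∀ z ∈ ball c r, G z ≠ 0) (hGq : ∀ z ∈ ball c r, G z ≠ q) {M : ℝ}
    (hM : ‖G c‖ ≤ M * ‖q‖) :
    ∀ z ∈ ball c (r / 2), ‖G z‖ ≤ SC M * ‖q‖ := by
  have hmaps : ∀ x ∈ ball (0:ℂ) 1, c + r * x ∈ ball c r := by
    intro x hx
    rw [mem_ball_zero_iff] at hx
    rw [mem_ball, dist_eq_norm]
    have : c + r * x - c = r * x := by ring
    rw [this, norm_mul, Complex.norm_real, Real.norm_eq_abs, abs_of_pos hr]
    nlinarith
  have hqn : 0 < ‖q‖ := norm_pos_iff.2 hq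
  set h : ℂ → ℂ := fun x => 2 * (G (c + r * x) / q) - 1 with hh
  have hd : DifferentiableOn ℂ h (ball 0 1) := by
    have h1 : DifferentiableOn ℂ (fun x : ℂ => c + r * x) (ball 0 1) := by fun_prop
    exact (((hG.comp h1 hmaps).div_const _).const_mul 2).sub_const _
  have h1 : ∀ x ∈ ball (0:ℂ) 1, h x ≠ 1 := by
    intro x hx he
    rw [hh] at he
    simp only at he
    have h3 : G (c + r * x) / q = 1 := by linear_combination he / 2
    rw [div_eq_one_iff_eq hq] at h3
    exact hGq _ (hmaps x hx) h3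
  have h2 : ∀ x ∈ ball (0:ℂ) 1, h x ≠ -1 := by
    intro x hx he
    rw [hh] at he
    simp only at he
    have h3 : G (c + r * x) / q = 0 := by linear_combination he / 2
    rw [div_eq_zero_iff] at h3
    rcases h3 with h3 | h3
    · exact hG0 _ (hmaps x hx) h3
    · exact hq h3
  have h3 : ‖h 0‖ ≤ 2 * M + 1 := by
    rw [hh]
    simp only [mul_zero, add_zero]
    have h4 : ‖G c / q‖ ≤ M := by
      rw [norm_div, div_le_iff₀ hqn]
      exact hM
    calc ‖2 * (G c / q) - 1‖ ≤ ‖2 * (G c / q)‖ + ‖(1 : ℂ)‖ := norm_sub_le _ _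
      _ ≤ 2 * M + 1 := by
          rw [norm_mul, norm_one]
          have : ‖(2 : ℂ)‖ = 2 := by norm_num
          rw [this]; linarith
  intro z hz
  have hx : (z - c) / r ∈ ball (0:ℂ) (1/2) := by
    rw [mem_ball_zero_iff, norm_div, Complex.norm_real, Real.norm_eq_abs, abs_of_pos hr]
    rw [mem_ball, dist_eq_norm] at hz
    rw [div_lt_iff₀ hr]; linarith
  have h4 := H113G.schottky_all h (2 * M + 1) hd h1 h2 h3 _ hx
  set E := Real.exp (Real.pi * Real.exp (Real.pi * ((2 * M + 1) + 386))) with hE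
  have hr' : (r : ℂ) ≠ 0 := by exact_mod_cast hr.ne'
  have h5 : G z / q = (h ((z - c) / r) + 1) / 2 := by
    rw [hh]
    simp only
    rw [mul_div_cancel₀ _ hr']
    have : c + (z - c) = z := by ring
    rw [this]; ring
  have hE0 : 0 ≤ E := (Real.exp_pos _).le
  have h6 : ‖G z / q‖ ≤ E + 1 := by
    rw [h5, norm_div]
    have h6 : ‖(2 : ℂ)‖ = 2 := by norm_num
    rw [h6, div_le_iff₀ (by norm_num)]
    calc ‖h ((z - c) / r) + 1‖ ≤ ‖h ((z - c) / r)‖ + ‖(1 : ℂ)‖ := norm_add_le _ _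
      _ ≤ E + 1 := by rw [norm_one]; linarith
      _ ≤ (E + 1) * 2 := by linarith
  rw [norm_div, div_le_iff₀ hqn] at h6
  exact h6

/-- Growth of a family of functions which omit `0` and `q n` on a connected open set. -/
theorem montel_grow {W : Set ℂ} (hW : IsPreconnected W) (hWo : IsOpen W) {F : ℕ → ℂ → ℂ}
    {q : ℕ → ℂ} (hF : ∀ n, DifferentiableOn ℂ (F n) W) (hq : ∀ n, q n ≠ 0)
    (h0 : ∀ n, ∀ z ∈ W, F n z ≠ 0) (h1 : ∀ n, ∀ z ∈ W, F n z ≠ q n) {x y : ℂ} (hx : x ∈ W)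
    (hxt : Tendsto (fun n => ‖F n x‖ / ‖q n‖) atTop atTop) (hy : y ∈ W) :
    Tendsto (fun n => ‖F n y‖ / ‖q n‖) atTop atTop := by
  set T : Set ℂ := {z | z ∈ W ∧ Tendsto (fun n => ‖F n z‖ / ‖q n‖) atTop atTop} with hT
  have hqn : ∀ n, 0 < ‖q n‖ := fun n => norm_pos_iff.2 (hq n)
  -- the local step
  have key : ∀ (z w : ℂ) (r : ℝ), 0 < r → ball z r ⊆ W → dist z w < r / 2 →
      Tendsto (fun n => ‖F n w‖ / ‖q n‖) atTop atTop →
      Tendsto (fun n => ‖F n z‖ / ‖q n‖) atTop atTop := by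
    intro z w r hr hsub hd ht
    rw [Filter.tendsto_atTop]
    intro M
    filter_upwards [ht.eventually_gt_atTop (SC M)] with n hn
    by_contra hcon
    push Not at hcon
    have h3 : ‖F n z‖ ≤ M * ‖q n‖ := ((div_lt_iff₀ (hqn n)).1 hcon).le
    have h4 := schottky_step hr ((hF n).mono hsub) (hq n) (fun u hu => h0 n u (hsub hu))
      (fun u hu => h1 n u (hsub hu)) h3 w (by rw [mem_ball, dist_comm]; exact hd)
    rw [lt_div_iff₀ (hqn n)] at hn
    linarith
  have hTo : IsOpen T := by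
    rw [Metric.isOpen_iff]
    rintro z ⟨hz, hzt⟩
    obtain ⟨r, hr, hsub⟩ := Metric.isOpen_iff.1 hWo z hz
    refine ⟨r / 4, by linarith, fun w hw => ?_⟩
    rw [mem_ball] at hw
    have hwW : w ∈ W := hsub (by rw [mem_ball]; linarith)
    refine ⟨hwW, key w z (r / 2) (by linarith) ?_ (by linarith) hzt⟩
    exact (ball_subset_ball' (by linarith)).trans hsub
  have hsub : W ⊆ T := by
    apply hW.subset_of_closure_inter_subset hTo ⟨x, hx, hx, hxt⟩
    rintro z ⟨hzc, hzW⟩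
    obtain ⟨r, hr, hsub⟩ := Metric.isOpen_iff.1 hWo z hzW
    obtain ⟨w, hwT, hw⟩ := Metric.mem_closure_iff.1 hzc (r / 2) (by linarith)
    exact ⟨hzW, key z w r hr hsub hw hwT.2⟩
  exact (hsub hy).2

theorem evt {f : ℂ → ℂ} {v s t δ σ : ℕ → ℝ} {c : Bool → ℕ → ℂ} (hD : Dat f v s t δ σ c)
    (hD2 : Dat2 f v s t δ c) {z : ℂ} (hz : z ∈ UU f s t 0) : ∀ᶠ n in atTop, v n < ‖f^[n] z‖ := by
  obtain ⟨-, hxF, hann, hmaps, -, -, hesc⟩ := A1.task f v s t δ σ c hD
  have hvt : ∀ k, v k < t k := fun k => (hD.vs k).trans (hD.st k)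
  have hv0 : ∀ k, 0 < v k := fun k => one_pos.trans (hD.v1 k)
  have hf0 : ∀ n, f^[n] 0 = 0 := fun n => Function.iterate_fixed hD.f0 n
  have h0U : ∀ k, (0 : ℂ) ∉ UU f s t k := by
    intro k h
    have h1 := hesc k 0 h
    obtain ⟨n, hn⟩ := (h1.eventually_ge_atTop 1).exists
    rw [hf0, norm_zero] at hn
    linarith
  have hit : ∀ n, MapsTo f^[n] (UU f s t 0) (UU f s t n) := by
    intro n
    induction n with
    | zero => intro x hx; simpa using hx
    | succ n ih =>
      intro x hx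
      rw [Function.iterate_succ_apply']
      exact hmaps n (ih hx)
  choose φ hφ1 hφ2 hφ3 hφ4 using hD.inv
  set q : ℕ → ℂ := fun n => φ true n 0 with hqdef
  have hq0 : ∀ n, (0 : ℂ) ∈ ball (0 : ℂ) (σ n) := fun n => mem_ball_self (hD.hσ n)
  have hqb : ∀ n, q n ∈ ball (c true n) (δ n) := fun n => hφ2 true n (hq0 n)
  have hfq : ∀ n, f (q n) = 0 := fun n => hφ3 true n 0 (hq0 n)
  have hqU : ∀ n, q n ∉ UU f s t n := by
    intro n h
    have := hmaps n h
    rw [hfq] at this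
    exact h0U _ this
  have hqv : ∀ n, v n ≤ 100 * ‖q n‖ := by
    intro n
    have h1 := hD2.vc true n
    have h2 := hqb n
    rw [mem_ball, dist_eq_norm] at h2
    have h3 : ‖c true n‖ ≤ ‖q n‖ + ‖q n - c true n‖ := by
      have := norm_sub_le (q n) (q n - c true n)
      simpa using this
    linarith
  have hqne : ∀ n, q n ≠ 0 := by
    intro n h
    have h1 := hqv n
    rw [h, norm_zero] at h1
    linarith [hv0 n]
  have hqn : ∀ n, 0 < ‖q n‖ := fun n => norm_pos_iff.2 (hqne n)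
  have hqv2 : ∀ n, ‖q n‖ ≤ v n := by
    intro n
    have h1 := hD.cv true n
    have h2 := hqb n
    rw [mem_ball, dist_eq_norm] at h2
    have h3 : ‖q n‖ ≤ ‖c true n‖ + ‖q n - c true n‖ := by
      have := norm_add_le (c true n) (q n - c true n)
      simpa using this
    linarith
  -- the base point
  have hxn : ‖xx s t 0‖ = (s 0 + t 0) / 2 := by
    have e1 := hD.v1 0
    have e2 := hD.vs 0
    have e3 := hD.st 0
    simp only [xx, Complex.norm_real, Real.norm_eq_abs]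
    rw [abs_of_pos (by linarith)]
  have hxs : ∀ n, s n ≤ ‖f^[n] (xx s t 0)‖ ∧ ‖f^[n] (xx s t 0)‖ < t n := by
    intro n
    induction n with
    | zero =>
      have e3 := hD.st 0
      simp only [Function.iterate_zero, id]
      rw [hxn]
      constructor <;> linarith
    | succ n ih =>
      rw [Function.iterate_succ_apply']
      exact ⟨hD2.s1 n _ ih.1 ih.2, (hD.ann n _ ((hD.vs n).trans_le ih.1) ih.2).2⟩
  have hxt : Tendsto (fun n => ‖f^[n] (xx s t 0)‖ / ‖q n‖) atTop atTop := by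
    refine tendsto_atTop_mono (fun n => ?_) hD2.s2
    rw [div_le_div_iff₀ (hv0 n) (hqn n)]
    have h1 := (hxs n).1
    have h2 := hqv2 n
    have h3 : 0 < s n := (hv0 n).trans (hD.vs n)
    calc s n * ‖q n‖ ≤ ‖f^[n] (xx s t 0)‖ * ‖q n‖ := by gcongr
      _ ≤ ‖f^[n] (xx s t 0)‖ * v n := by gcongr
  have hmain := montel_grow (W := UU f s t 0) isPreconnected_connectedComponentIn
    (component_isOpen f _) (F := fun n => f^[n]) (q := q)
    (fun n => (hD.df.iterate n).differentiableOn) hqne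
    (fun n w hw h => h0U n (h ▸ hit n hw)) (fun n w hw h => hqU n (h ▸ hit n hw))
    (mem_connectedComponentIn (hxF 0)) hxt hz
  filter_upwards [hmain.eventually_gt_atTop 100] with n hn
  rw [lt_div_iff₀ (hqn n)] at hn
  exact (hqv n).trans_lt hn

end A3

end Pool.Agent.W757.SG
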