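import Mathlib

/-! Components of complements of open sets: singletons. -/

set_option autoImplicit false

open Filter Topology Metric Set

namespace Pool.Agent.W757.SG

/-- A preconnected set which meets the open set `D` and misses its frontier lies in `D`. -/
theorem subset_of_frontier {X : Type} [TopologicalSpace X] {S D : Set X} (hS : IsPreconnected S)
    (hD : IsOpen D) (h1 : (S ∩ D).Nonempty) (h2 : ∀ x ∈ S, x ∉ frontier D) : S ⊆ D := by
  have hc : IsOpen (closure D)ᶜ := isClosed_closure.isOpen_compl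
  have hcov : S ⊆ D ∪ (closure D)ᶜ := by
    intro x hx
    by_cases hxD : x ∈ D
    · exact Or.inl hxD
    · right
      intro hxc
      apply h2 x hx
      rw [frontier, hD.interior_eq]
      exact ⟨hxc, hxD⟩
  rcases hS.subset_or_subset hD hc (by
      rw [Set.disjoint_left]
      intro x hx hx2
      exact hx2 (subset_closure hx)) hcov with h | h
  · exact h
  · exfalso
    obtain ⟨x, hx, hxD⟩ := h1
    exact h hx (subset_closure hxD)

/-- A point with arbitrarily small neighbourhoods whose frontiers lie in `W` is a component of the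
complement of `W`. -/
theorem comp_single {W : Set ℂ} {p : ℂ} (hp : p ∉ W)
    (h : ∀ ε : ℝ, 0 < ε → ∃ D : Set ℂ, IsOpen D ∧ p ∈ D ∧ D ⊆ ball p ε ∧ frontier D ⊆ W) :
    connectedComponentIn Wᶜ p = {p} := by
  have hpc : p ∈ Wᶜ := hp
  refine Subset.antisymm ?_ (singleton_subset_iff.2 (mem_connectedComponentIn hpc))
  intro x hx
  rw [mem_singleton_iff]
  by_contra hne
  obtain ⟨D, hD, hpD, hDb, hfr⟩ := h (dist x p) (dist_pos.2 hne)
  have := subset_of_frontier isPreconnected_connectedComponentIn hD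
    ⟨p, mem_connectedComponentIn hpc, hpD⟩
    (fun y hy hy2 => connectedComponentIn_subset _ _ hy (hfr hy2)) hx
  have h2 := hDb this
  rw [mem_ball] at h2
  exact lt_irrefl _ h2

theorem frontier_coe {D : Set ℂ} (hD : IsOpen D) (hb : Bornology.IsBounded D) :
    frontier ((fun z : ℂ => (z : OnePoint ℂ)) '' D) =
      (fun z : ℂ => (z : OnePoint ℂ)) '' frontier D := by
  have hemb : IsOpenEmbedding (fun z : ℂ => (z : OnePoint ℂ)) := OnePoint.isOpenEmbedding_coe
  have hcl : closure ((fun z : ℂ => (z : OnePoint ℂ)) '' D) =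
      (fun z : ℂ => (z : OnePoint ℂ)) '' closure D := by
    apply Subset.antisymm
    · apply closure_minimal (image_mono subset_closure)
      exact (hb.isCompact_closure.image hemb.continuous).isClosed
    · exact image_closure_subset_closure_image hemb.continuous
  have hop : IsOpen ((fun z : ℂ => (z : OnePoint ℂ)) '' D) := hemb.isOpenMap D hD
  rw [frontier, hcl, hop.interior_eq, frontier, hD.interior_eq, image_sdiff hemb.injective]

/-- the same in the Riemann sphere -/
theorem comp_single_sphere {W : Set ℂ} {p : ℂ} (hp : p ∉ W)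
    (h : ∀ ε : ℝ, 0 < ε → ∃ D : Set ℂ, IsOpen D ∧ p ∈ D ∧ D ⊆ ball p ε ∧ frontier D ⊆ W) :
    connectedComponentIn ((fun z : ℂ => (z : OnePoint ℂ)) '' W)ᶜ (p : OnePoint ℂ) =
      {(p : OnePoint ℂ)} := by
  have hemb : IsOpenEmbedding (fun z : ℂ => (z : OnePoint ℂ)) := OnePoint.isOpenEmbedding_coe
  have hpc : (p : OnePoint ℂ) ∈ ((fun z : ℂ => (z : OnePoint ℂ)) '' W)ᶜ := by
    rintro ⟨q, hq, hqp⟩
    exact hp (by rwa [← hemb.injective hqp])
  refine Subset.antisymm ?_ (singleton_subset_iff.2 (mem_connectedComponentIn hpc))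
  intro x hx
  rw [mem_singleton_iff]
  by_contra hne
  -- the component lies in the image of every disc
  have key : ∀ ε : ℝ, 0 < ε → ∃ D : Set ℂ, D ⊆ ball p ε ∧
      x ∈ (fun z : ℂ => (z : OnePoint ℂ)) '' D := by
    intro ε hε
    obtain ⟨D, hD, hpD, hDb, hfr⟩ := h ε hε
    refine ⟨D, hDb, ?_⟩
    refine subset_of_frontier isPreconnected_connectedComponentIn (hemb.isOpenMap D hD)
      ⟨(p : OnePoint ℂ), mem_connectedComponentIn hpc, ⟨p, hpD, rfl⟩⟩ ?_ hx
    intro y hy hy2
    rw [frontier_coe hD (isBounded_ball.subset hDb)] at hy2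
    obtain ⟨z, hz, rfl⟩ := hy2
    exact connectedComponentIn_subset _ _ hy ⟨z, hfr hz, rfl⟩
  obtain ⟨D, hDb, y, hy, rfl⟩ := key 1 one_pos
  have hyp : y ≠ p := fun h => hne (by rw [h])
  obtain ⟨D', hDb', y', hy', hyy⟩ := key (dist y p) (dist_pos.2 hyp)
  have : y' = y := hemb.injective hyy
  subst this
  have h2 := hDb' hy'
  rw [mem_ball] at h2
  exact lt_irrefl _ h2

end Pool.Agent.W757.SG
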