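import Mathlib
import Pool.Agent.W757.SG.Defs
import Pool.Agent.W757.SG.Top

/-! Final step of the project SG. -/

set_option autoImplicit false

open Filter Topology Metric Set
open Pool.Agent.H384R2.Fatou

namespace Pool.Agent.W757.SG

/-- the components of the complement, in the Riemann sphere, of a set of complex numbers -/
def SphereComponents (W : Set ℂ) : Set (Set (OnePoint ℂ)) :=
  {K | ∃ x ∈ ((fun z : ℂ => (z : OnePoint ℂ)) '' W)ᶜ,
    K = connectedComponentIn ((fun z : ℂ => (z : OnePoint ℂ)) '' W)ᶜ x}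

/-- infinite inner connectivity -/
def InfInner (f : ℂ → ℂ) (U : Set ℂ) : Prop :=
  ∃ z₀ ∈ U, ∃ N : ℕ, ∀ n ≥ N,
    (SphereComponents (FatouComponent f (f^[n] z₀) ∩ ball 0 ‖f^[n] z₀‖)).Infinite

theorem not_countable_seq : ¬ (Countable (ℕ → Bool)) := by
  intro h
  obtain ⟨g, hg⟩ := exists_surjective_nat (ℕ → Bool)
  obtain ⟨n, hn⟩ := hg (fun k => !(g k k))
  have := congrFun hn n
  simp at this

theorem fin {f : ℂ → ℂ} {v s t δ σ : ℕ → ℝ} {c : Bool → ℕ → ℂ} (hD : Dat f v s t δ σ c)
    (h1 : StABS1) (h2 : StABS2) :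
    Differentiable ℂ f ∧ (¬ ∃ p : Polynomial ℂ, ∀ z, f z = p.eval z) ∧
      ∃ U : Set ℂ, (∃ z ∈ FatouSet f, U = FatouComponent f z) ∧ IsWanderingDomain f U ∧
        InfInner f U ∧ ¬ {p : ℂ | connectedComponentIn Uᶜ p = {p}}.Countable := by
  obtain ⟨hnp, hxF, hann, hmaps, hne, -, hesc⟩ := h1 f v s t δ σ c hD
  set U : ℕ → Set ℂ := UU f s t with hU
  have hxU : ∀ k, xx s t k ∈ U k := fun k => mem_connectedComponentIn (hxF k)
  have hUo : ∀ k, IsOpen (U k) := fun k => Pool.Agent.W723.MC.component_isOpen f _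
  -- the points
  choose p hp hpD using fun (k : ℕ) (ω : ℕ → Bool) => h2 f v s t δ σ c hD k ω
  have hinj : ∀ k, Function.Injective (p k) := by
    intro k ω ω' h
    by_contra hne
    obtain ⟨j, hj⟩ : ∃ j, ω j ≠ ω' j := by
      by_contra hcon
      push Not at hcon
      exact hne (funext hcon)
    have e1 := hp k ω j
    have e2 := hp k ω' j
    rw [← h] at e2
    have e3 := hD.dis (k + j)
    rw [mem_ball] at e1 e2
    have e4 : dist (c true (k + j)) (c false (k + j)) < 2 * δ (k + j) := by
      rcases hb : ω j with _ | _ <;> rcases hb' : ω' j with _ | _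
      · exact absurd (hb.trans hb'.symm) hj
      · rw [hb] at e1; rw [hb'] at e2
        calc dist (c true (k + j)) (c false (k + j)) ≤
            dist (c true (k + j)) (f^[j] (p k ω)) + dist (f^[j] (p k ω)) (c false (k + j)) :=
              dist_triangle _ _ _
          _ < δ (k + j) + δ (k + j) := by
              rw [dist_comm (c true (k + j))]
              linarith
          _ = _ := by ring
      · rw [hb] at e1; rw [hb'] at e2
        calc dist (c true (k + j)) (c false (k + j)) ≤
            dist (c true (k + j)) (f^[j] (p k ω)) + dist (f^[j] (p k ω)) (c false (k + j)) :=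
              dist_triangle _ _ _
          _ < δ (k + j) + δ (k + j) := by
              rw [dist_comm (c true (k + j))]
              linarith
          _ = _ := by ring
      · exact absurd (hb.trans hb'.symm) hj
    rw [dist_eq_norm] at e4
    linarith
  have hf0 : ∀ n, f^[n] 0 = 0 := fun n => Function.iterate_fixed hD.f0 n
  have hpU : ∀ k ω, p k ω ∉ U k := by
    intro k ω hmem
    obtain ⟨ε, hε, hb⟩ := Metric.isOpen_iff.1 (hUo k) _ hmem
    obtain ⟨D, -, -, hDb, -, -, q, hq, m, hm⟩ := hpD k ω ε hε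
    have h3 := hesc k q (hb (hDb hq))
    obtain ⟨n, hn1, hn2⟩ := ((h3.eventually_ge_atTop 1).and (eventually_ge_atTop m)).exists
    obtain ⟨l, rfl⟩ := Nat.exists_eq_add_of_le hn2
    rw [add_comm, Function.iterate_add_apply, hm, hf0, norm_zero] at hn1
    linarith
  refine ⟨hD.df, hnp, U 0, ⟨xx s t 0, hxF 0, rfl⟩, ?_, ?_, ?_⟩
  · -- wandering
    refine ⟨U, rfl, fun k => ⟨xx s t k, hxF k, rfl⟩, fun k => ?_, hne⟩
    induction k with
    | zero => simp
    | succ k ih =>
      rintro _ ⟨x, hx, rfl⟩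
      rw [Function.iterate_succ_apply']
      exact hmaps k (ih ⟨x, hx, rfl⟩)
  · -- infinite inner connectivity
    refine ⟨xx s t 0, hxU 0, 0, fun n _ => ?_⟩
    have hmem : ∀ n, v n < ‖f^[n] (xx s t 0)‖ ∧ ‖f^[n] (xx s t 0)‖ < t n := by
      intro n
      induction n with
      | zero =>
        have e1 := hD.v1 0
        have e2 := hD.vs 0
        have e3 := hD.st 0
        have e4 : ‖f^[0] (xx s t 0)‖ = (s 0 + t 0) / 2 := by
          simp only [Function.iterate_zero, id, xx, Complex.norm_real, Real.norm_eq_abs]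
          rw [abs_of_pos (by linarith)]
        rw [e4]
        constructor <;> linarith
      | succ n ih =>
        rw [Function.iterate_succ_apply']
        exact hD.ann n _ ih.1 ih.2
    have hcomp : FatouComponent f (f^[n] (xx s t 0)) = U n := by
      have h3 := hann n _ (hmem n).1 (hmem n).2
      exact (connectedComponentIn_eq h3).symm
    rw [hcomp]
    set R := ‖f^[n] (xx s t 0)‖ with hR
    have hR2 : v n < R := (hmem n).1
    have hsing : ∀ ω, connectedComponentIn
        ((fun z : ℂ => (z : OnePoint ℂ)) '' (U n ∩ ball 0 R))ᶜ (p n ω : OnePoint ℂ) =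
        {(p n ω : OnePoint ℂ)} := by
      intro ω
      apply comp_single_sphere (fun h => hpU n ω h.1)
      intro ε hε
      obtain ⟨D, hDo, hpD', hDb, hDv, hfr, -⟩ := hpD n ω ε hε
      refine ⟨D, hDo, hpD', hDb, fun x hx => ⟨hfr hx, ?_⟩⟩
      have h4 : x ∈ closedBall (0 : ℂ) (v n) :=
        closure_minimal (hDv.trans ball_subset_closedBall) isClosed_closedBall
          (frontier_subset_closure hx)
      exact closedBall_subset_ball hR2 h4
    have hinf : (range fun ω => ({(p n ω : OnePoint ℂ)} : Set (OnePoint ℂ))).Infinite := by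
      apply Set.infinite_range_of_injective
      intro ω ω' h
      apply hinj n
      have h5 : (p n ω : OnePoint ℂ) = (p n ω' : OnePoint ℂ) := by
        simpa using h
      exact OnePoint.coe_injective h5
    refine hinf.mono ?_
    rintro _ ⟨ω, rfl⟩
    refine ⟨(p n ω : OnePoint ℂ), ?_, (hsing ω).symm⟩
    rintro ⟨z, hz, hzp⟩
    have h6 : z = p n ω := OnePoint.coe_injective hzp
    rw [h6] at hz
    exact hpU n ω hz.1
  · -- uncountably many singletons
    intro hcount
    have hsub : range (p 0) ⊆ {p : ℂ | connectedComponentIn (U 0)ᶜ p = {p}} := by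
      rintro _ ⟨ω, rfl⟩
      apply comp_single (hpU 0 ω)
      intro ε hε
      obtain ⟨D, hDo, hpD', hDb, -, hfr, -⟩ := hpD 0 ω ε hε
      exact ⟨D, hDo, hpD', hDb, hfr⟩
    have h3 : (range (p 0)).Countable := hcount.mono hsub
    have h4 : Countable (ℕ → Bool) := by
      have : Countable (range (p 0)) := h3.to_subtype
      exact (Set.rangeFactorization_injective.2 (hinj 0)).countable
    exact not_countable_seq h4

/-- the main theorem from the parts -/
theorem main_of (h1 : StABS1) (h2 : StABS2) (h3 : StFUN1) (h4 : StFUN2) (h5 : StFUN3) :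
    Differentiable ℂ ff ∧ (¬ ∃ p : Polynomial ℂ, ∀ z, ff z = p.eval z) ∧
      ∃ U : Set ℂ, (∃ z ∈ FatouSet ff, U = FatouComponent ff z) ∧ IsWanderingDomain ff U ∧
        InfInner ff U ∧ ¬ {p : ℂ | connectedComponentIn Uᶜ p = {p}}.Countable := by
  obtain ⟨a1, a2, -, -⟩ := h3
  obtain ⟨b1, b2, b3, b4, b5, b6, b7, b8, b9, b10, b11, b12, b13⟩ := h4
  exact fin (v := vv) (s := ss) (t := tt) (δ := dl) (σ := sg) (c := cc)
    ⟨a1, a2, b1, b2, b3, b4, b5, b6, b7, b8, b9, b10, b11, b12, h5, b13⟩ h1 h2

end Pool.Agent.W757.SG
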