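import Mathlib
import Pool.Agent.W757.SG.Defs
import Pool.Agent.W757.SG.Top
import Pool.Agent.W757.SG.Fin
import Pool.Agent.W757.SG.Abs1
import Pool.Agent.W757.SG.Abs3

/-! Final step of the project SG, for all base points. -/

set_option autoImplicit false

open Filter Topology Metric Set
open Pool.Agent.H384R2.Fatou

namespace Pool.Agent.W757.SG

/-- The domain `U` is multiply connected: its complement has a bounded component. -/
def MultiplyConnected (U : Set ℂ) : Prop :=
  ∃ p ∈ Uᶜ, Bornology.IsBounded (connectedComponentIn Uᶜ p)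

/-- Infinite inner connectivity: for each `z₀` in `U` and all large `n`, the intersection of the
Fatou component `U_n` which contains `f^n(z₀)` with the disc `|z| < |f^n(z₀)|` has infinitely many
complementary components in the Riemann sphere. -/
def InfiniteInnerConnectivity (f : ℂ → ℂ) (U : Set ℂ) : Prop :=
  ∀ z₀ ∈ U, ∃ N : ℕ, ∀ n ≥ N,
    (SphereComponents (FatouComponent f (f^[n] z₀) ∩ ball 0 ‖f^[n] z₀‖)).Infinite

theorem fin2 {f : ℂ → ℂ} {v s t δ σ : ℕ → ℝ} {c : Bool → ℕ → ℂ} (hD : Dat f v s t δ σ c)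
    (hD2 : Dat2 f v s t δ c) (h2 : StABS2) :
    Differentiable ℂ f ∧ (¬ ∃ p : Polynomial ℂ, ∀ z, f z = p.eval z) ∧
      ∃ U : Set ℂ, (∃ z ∈ FatouSet f, U = FatouComponent f z) ∧ IsWanderingDomain f U ∧
        MultiplyConnected U ∧ InfiniteInnerConnectivity f U ∧
        ¬ {p : ℂ | p ∈ Uᶜ ∧ connectedComponentIn Uᶜ p = {p}}.Countable := by
  obtain ⟨hnp, hxF, hann, hmaps, hne, -, hesc⟩ := A1.task f v s t δ σ c hD
  set U : ℕ → Set ℂ := UU f s t with hU
  have hxU : ∀ k, xx s t k ∈ U k := fun k => mem_connectedComponentIn (hxF k)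
  have hUo : ∀ k, IsOpen (U k) := fun k => Pool.Agent.W723.MC.component_isOpen f _
  -- the points
  choose p hp hpD using fun (k : ℕ) (ω : ℕ → Bool) => h2 f v s t δ σ c hD k ω
  have hinj : ∀ k, Function.Injective (p k) := by
    intro k ω ω' h
    by_contra hne
    obtain ⟨j, hj⟩ : ∃ j, ω j ≠ ω' j := by
      by_contra hcon
      push Not at hcon
      exact hne (funext hcon)
    have e1 := hp k ω j
    have e2 := hp k ω' j
    rw [← h] at e2
    have e3 := hD.dis (k + j)
    rw [mem_ball] at e1 e2
    have e4 : dist (c true (k + j)) (c false (k + j)) < 2 * δ (k + j) := by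
      rcases hb : ω j with _ | _ <;> rcases hb' : ω' j with _ | _
      · exact absurd (hb.trans hb'.symm) hj
      · rw [hb] at e1; rw [hb'] at e2
        calc dist (c true (k + j)) (c false (k + j)) ≤
            dist (c true (k + j)) (f^[j] (p k ω)) + dist (f^[j] (p k ω)) (c false (k + j)) :=
              dist_triangle _ _ _
          _ < δ (k + j) + δ (k + j) := by
              rw [dist_comm (c true (k + j))]
              linarith
          _ = _ := by ring
      · rw [hb] at e1; rw [hb'] at e2
        calc dist (c true (k + j)) (c false (k + j)) ≤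
            dist (c true (k + j)) (f^[j] (p k ω)) + dist (f^[j] (p k ω)) (c false (k + j)) :=
              dist_triangle _ _ _
          _ < δ (k + j) + δ (k + j) := by
              rw [dist_comm (c true (k + j))]
              linarith
          _ = _ := by ring
      · exact absurd (hb.trans hb'.symm) hj
    rw [dist_eq_norm] at e4
    linarith
  have hf0 : ∀ n, f^[n] 0 = 0 := fun n => Function.iterate_fixed hD.f0 n
  have hpU : ∀ k ω, p k ω ∉ U k := by
    intro k ω hmem
    obtain ⟨ε, hε, hb⟩ := Metric.isOpen_iff.1 (hUo k) _ hmem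
    obtain ⟨D, -, -, hDb, -, -, q, hq, m, hm⟩ := hpD k ω ε hε
    have h3 := hesc k q (hb (hDb hq))
    obtain ⟨n, hn1, hn2⟩ := ((h3.eventually_ge_atTop 1).and (eventually_ge_atTop m)).exists
    obtain ⟨l, rfl⟩ := Nat.exists_eq_add_of_le hn2
    rw [add_comm, Function.iterate_add_apply, hm, hf0, norm_zero] at hn1
    linarith
  -- singleton components
  have hsing0 : ∀ ω, connectedComponentIn (U 0)ᶜ (p 0 ω) = {p 0 ω} := by
    intro ω
    apply comp_single (hpU 0 ω)
    intro ε hε
    obtain ⟨D, hDo, hpD', hDb, -, hfr, -⟩ := hpD 0 ω ε hε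
    exact ⟨D, hDo, hpD', hDb, hfr⟩
  have hit : ∀ n, MapsTo f^[n] (U 0) (U n) := by
    intro n
    induction n with
    | zero => intro x hx; simpa using hx
    | succ n ih =>
      intro x hx
      rw [Function.iterate_succ_apply']
      exact hmaps n (ih hx)
  refine ⟨hD.df, hnp, U 0, ⟨xx s t 0, hxF 0, rfl⟩, ?_, ?_, ?_, ?_⟩
  · -- wandering
    refine ⟨U, rfl, fun k => ⟨xx s t k, hxF k, rfl⟩, fun k => ?_, hne⟩
    rintro _ ⟨x, hx, rfl⟩
    exact hit k hx
  · -- multiply connected
    refine ⟨p 0 (fun _ => true), hpU 0 _, ?_⟩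
    rw [hsing0]
    exact Bornology.isBounded_singleton
  · -- infinite inner connectivity
    intro z₀ hz₀
    obtain ⟨N, hN⟩ := Filter.eventually_atTop.1 (A3.evt hD hD2 hz₀)
    refine ⟨N, fun n hn => ?_⟩
    have hcomp : FatouComponent f (f^[n] z₀) = U n :=
      (connectedComponentIn_eq (hit n hz₀)).symm
    rw [hcomp]
    set R := ‖f^[n] z₀‖ with hR
    have hR2 : v n < R := hN n hn
    have hsing : ∀ ω, connectedComponentIn
        ((fun z : ℂ => (z : OnePoint ℂ)) '' (U n ∩ ball 0 R))ᶜ (p n ω : OnePoint ℂ) =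
        {(p n ω : OnePoint ℂ)} := by
      intro ω
      apply comp_single_sphere (fun h => hpU n ω h.1)
      intro ε hε
      obtain ⟨D, hDo, hpD', hDb, hDv, hfr, -⟩ := hpD n ω ε hε
      refine ⟨D, hDo, hpD', hDb, fun x hx => ⟨hfr hx, ?_⟩⟩
      have h4 : x ∈ closedBall (0 : ℂ) (v n) :=
        closure_minimal (hDv.trans ball_subset_closedBall) isClosed_closedBall
          (frontier_subset_closure hx)
      exact closedBall_subset_ball hR2 h4
    have hinf : (range fun ω => ({(p n ω : OnePoint ℂ)} : Set (OnePoint ℂ))).Infinite := by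
      apply Set.infinite_range_of_injective
      intro ω ω' h
      apply hinj n
      have h5 : (p n ω : OnePoint ℂ) = (p n ω' : OnePoint ℂ) := by
        simpa using h
      exact OnePoint.coe_injective h5
    refine hinf.mono ?_
    rintro _ ⟨ω, rfl⟩
    refine ⟨(p n ω : OnePoint ℂ), ?_, (hsing ω).symm⟩
    rintro ⟨z, hz, hzp⟩
    have h6 : z = p n ω := OnePoint.coe_injective hzp
    rw [h6] at hz
    exact hpU n ω hz.1
  · -- uncountably many singletons
    intro hcount
    have hsub : range (p 0) ⊆ {p : ℂ | p ∈ (U 0)ᶜ ∧ connectedComponentIn (U 0)ᶜ p = {p}} := by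
      rintro _ ⟨ω, rfl⟩
      exact ⟨hpU 0 ω, hsing0 ω⟩
    have h3 : (range (p 0)).Countable := hcount.mono hsub
    have h4 : Countable (ℕ → Bool) := by
      have : Countable (range (p 0)) := h3.to_subtype
      exact (Set.rangeFactorization_injective.2 (hinj 0)).countable
    exact not_countable_seq h4

end Pool.Agent.W757.SG
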