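import Mathlib
import Pool.Agent.W757.SG.Defs
import Pool.Agent.W757.SG.Abs3
import Pool.Agent.W174.SG.Fun1

/-! The additional properties of the function. -/

set_option autoImplicit false

open Filter Topology Metric Set
open Pool.Agent.W174.SG

namespace Pool.Agent.W757.SG

theorem ff_s1 (h : StFUN1) (k : ℕ) (z : ℂ) (h1 : ss k ≤ ‖z‖) (h2 : ‖z‖ < tt k) :
    ss (k + 1) ≤ ‖ff z‖ := by
  obtain ⟨-, -, herr, -⟩ := h
  have hee := ee_ge k
  have hla := la_pos k
  have hss : 0 < ss k := Real.exp_pos _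
  have haa : 0 < aa k := Real.exp_pos _
  have hpp : 0 < pp k := Real.exp_pos _
  have hw : ww k ≤ ‖z‖ := by
    refine le_trans ?_ h1
    unfold ww ss
    exact Real.exp_le_exp.2 (by linarith)
  have he := herr k z hw h2.le
  set N : ℝ := pp k * ‖z‖ ^ ee k with hN
  have hN0 : 0 < N := by
    have : 0 < ‖z‖ := hss.trans_le h1
    positivity
  -- size of the main term
  have hq : 3 ≤ ‖z‖ ^ 2 / aa k ^ 2 := by
    rw [le_div_iff₀ (by positivity)]
    have e1 : 2 * aa k ≤ ss k := by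
      have e2 : ss k = aa k * Real.exp (4 * ee k + 10) := by
        unfold ss aa
        rw [← Real.exp_add]
        congr 1
        ring
      rw [e2, mul_comm 2]
      have := Real.add_one_le_exp (4 * (ee k : ℝ) + 10)
      gcongr
      linarith
    have e3 : 2 * aa k ≤ ‖z‖ := e1.trans h1
    nlinarith
  have hT : 2 * N ≤ ‖TT k z‖ := by
    have e1 : ‖TT k z‖ = N * ‖1 + z ^ 2 / (aa k : ℂ) ^ 2‖ := by
      unfold TT
      rw [norm_mul, norm_mul, norm_pow, Complex.norm_real, Real.norm_of_nonneg hpp.le]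
    rw [e1, mul_comm]
    have e2 : 2 ≤ ‖1 + z ^ 2 / (aa k : ℂ) ^ 2‖ := by
      have e3 : ‖z ^ 2 / (aa k : ℂ) ^ 2‖ = ‖z‖ ^ 2 / aa k ^ 2 := by
        rw [norm_div, norm_pow, norm_pow, Complex.norm_real, Real.norm_of_nonneg haa.le]
      have e4 : ‖z ^ 2 / (aa k : ℂ) ^ 2‖ ≤ ‖1 + z ^ 2 / (aa k : ℂ) ^ 2‖ + ‖(1 : ℂ)‖ := by
        have := norm_sub_le (1 + z ^ 2 / (aa k : ℂ) ^ 2) 1
        simpa using this
      rw [norm_one, e3] at e4
      linarith
    gcongr
  have hsmall : 1 / (1000 * (ee k : ℝ) ^ 2) ≤ 1 := by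
    rw [div_le_one (by positivity)]
    nlinarith
  have he2 : ‖ff z - TT k z‖ ≤ N := by
    refine he.trans ?_
    calc 1 / (1000 * (ee k : ℝ) ^ 2) * N ≤ 1 * N := by gcongr
      _ = N := one_mul _
  have h3 : N ≤ ‖ff z‖ := by
    have e1 : ‖TT k z‖ ≤ ‖ff z‖ + ‖ff z - TT k z‖ := by
      have := norm_sub_le (ff z) (ff z - TT k z)
      simpa using this
    linarith
  refine le_trans ?_ h3
  have h4 : pp k * ss k ^ ee k ≤ N := by
    rw [hN]
    gcongr
  refine le_trans ?_ h4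
  unfold pp ss
  rw [← Real.exp_nat_mul, ← Real.exp_add]
  apply Real.exp_le_exp.2
  have hk : (0 : ℝ) ≤ k := Nat.cast_nonneg k
  have e6 : (ee (k + 1) : ℝ) = ee k + (4 * k + 42) := by
    rw [ee_succ]; push_cast; ring
  have e7 : (k : ℝ) ≤ ee k := by
    rw [ee_real]; nlinarith
  have e8 : 200 * (ee k : ℝ) ≤ (ee k : ℝ) * ee k := by gcongr
  have e9 : (ee k : ℝ) * (la k + 4 * ee k + 12) =
      ee k * la k + 4 * (ee k * ee k) + 12 * ee k := by ring
  have e10 : ((ee k : ℝ) - 1) * la k = ee k * la k - la k := by ring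
  rw [la_succ, e6, e9, e10]
  linarith

theorem ff_s2 : Tendsto (fun k => ss k / vv k) atTop atTop := by
  have h : ∀ k : ℕ, (k : ℝ) ≤ ss k / vv k := by
    intro k
    unfold ss vv
    rw [← Real.exp_sub]
    have h1 := Real.add_one_le_exp (la k + 4 * ee k + 12 - (la k + 4))
    have h2 := ee_real k
    have hk : (0 : ℝ) ≤ k := Nat.cast_nonneg k
    nlinarith
  exact tendsto_atTop_mono h tendsto_natCast_atTop_atTop

theorem norm_cc (b : Bool) (k : ℕ) : ‖cc b k‖ = aa k := by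
  have haa : 0 < aa k := Real.exp_pos _
  unfold cc
  split
  · rw [norm_mul, Complex.norm_I, one_mul, Complex.norm_real, Real.norm_of_nonneg haa.le]
  · rw [norm_neg, norm_mul, Complex.norm_I, one_mul, Complex.norm_real, Real.norm_of_nonneg haa.le]

theorem ff_vc (b : Bool) (k : ℕ) : vv k ≤ 100 * (‖cc b k‖ - dl k) := by
  have haa : 0 < aa k := Real.exp_pos _
  rw [norm_cc]
  have h1 : dl k ≤ aa k / 20 := by
    unfold dl
    have := ee_ge k
    apply div_le_div_of_nonneg_left haa.le (by norm_num)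
    linarith
  have h2 : vv k = aa k * Real.exp 2 := by
    unfold vv aa
    rw [← Real.exp_add]
    congr 1
    ring
  have h3 : Real.exp 2 ≤ 9 := by
    have e1 := Real.exp_one_lt_d9
    have e2 : Real.exp 2 = Real.exp 1 * Real.exp 1 := by
      rw [← Real.exp_add]; norm_num
    rw [e2]
    have e3 := Real.exp_pos 1
    nlinarith
  rw [h2]
  nlinarith

theorem dat2_of (h : StFUN1) : Dat2 ff vv ss tt dl cc := ⟨ff_s1 h, ff_s2, ff_vc⟩

end Pool.Agent.W757.SG
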