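import Mathlib
import Pool.Agent.W757.SG.Fin2
import Pool.Agent.W757.SG.Fun4
import Pool.Agent.W308.SG.ABS2
import Pool.Agent.W174.SG.Fun1
import Pool.Agent.W174.SG.Fun2

/-! The project SG, up to the inverse branches. -/

set_option autoImplicit false

open Filter Topology Metric Set
open Pool.Agent.H384R2.Fatou

namespace Pool.Agent.W757.SG

theorem main_of3 (h5 : StFUN3) :
    Differentiable ℂ ff ∧ (¬ ∃ p : Polynomial ℂ, ∀ z, ff z = p.eval z) ∧
      ∃ U : Set ℂ, (∃ z ∈ FatouSet ff, U = FatouComponent ff z) ∧ IsWanderingDomain ff U ∧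
        MultiplyConnected U ∧ InfiniteInnerConnectivity ff U ∧
        ¬ {p : ℂ | p ∈ Uᶜ ∧ connectedComponentIn Uᶜ p = {p}}.Countable := by
  have h3 : StFUN1 := Pool.Agent.W174.SG.fun1
  obtain ⟨a1, a2, -, -⟩ := id h3
  obtain ⟨b1, b2, b3, b4, b5, b6, b7, b8, b9, b10, b11, b12, b13⟩ := Pool.Agent.W174.SG.fun2 h3
  exact fin2 (v := vv) (s := ss) (t := tt) (δ := dl) (σ := sg) (c := cc)
    ⟨a1, a2, b1, b2, b3, b4, b5, b6, b7, b8, b9, b10, b11, b12, h5, b13⟩ (dat2_of h3)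
    (Pool.Agent.W308.SG.ABS2.task A1.task)

end Pool.Agent.W757.SG
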